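import Pool.Agent.H185.PM.Main

set_option autoImplicit false

open Pool.Agent.H185.PM

namespace Pool.Agent.Results.MP_3627f5_co.QuadraticLogLowerBound

/-- the minimum number of moves transforming `f` into `g` -/
noncomputable def minMoves {V : Type*} {n : ℕ} (G : SimpleGraph V) (f g : V → Fin (n + 1)) : ℕ :=
  sInf {m : ℕ | Solves G f g m}

theorem result :
    ∃ c : ℝ, 0 < c ∧ ∀ N₀ : ℕ, ∃ N : ℕ, N₀ ≤ N ∧
      ∃ (G : SimpleGraph (Fin N)) (n : ℕ) (f g : Fin N → Fin (n + 1)),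
        G.IsTree ∧ n < N ∧ n + isthmusSize G < N ∧ IsConfig f ∧ IsConfig g ∧
        (∃ m, Solves G f g m) ∧
        c * (N : ℝ) ^ 2 * Real.log N ≤ (minMoves G f g : ℝ) := by
  refine ⟨1 / 1000, by norm_num, fun N₀ => ?_⟩
  set m := N₀ + 100 with hm
  have hlt : m < 2 ^ m := Nat.lt_two_pow_self
  obtain ⟨f, g, hf, hg, hT, h⟩ := instance_bound (m := m) (by omega)
  have hL : 0 < 2 ^ m := by positivity
  refine ⟨2 * 2 ^ m + 2, by omega, spider (2 ^ m), 2 ^ m, f, g, spider_tree _, by omega, ?_, hf, hg,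
    hT, ?_⟩
  · have := isthmus_le hL
    omega
  · have hmem : minMoves (spider (2 ^ m)) f g ∈ {T : ℕ | Solves (spider (2 ^ m)) f g T} :=
      Nat.sInf_mem hT
    exact h _ hmem

end Pool.Agent.Results.MP_3627f5_co.QuadraticLogLowerBound
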